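import Mathlib

namespace Pool.Agent.MP_5c28a4_al.H4

/-- abstract description of the Pruefer group `Z(2^∞)` -/
structure Pf (C : Type) [AddCommGroup C] (e : ℕ → C) : Prop where
  gen : ∀ x : C, ∃ (n : ℕ) (a : ℤ), x = a • e n
  half : ∀ n, (2 : ℤ) • e (n + 1) = e n
  ord : ∀ (n : ℕ) (a : ℤ), a • e n = 0 ↔ (2 : ℤ) ^ n ∣ a

theorem exists_pf : ∃ (C : Type) (_ : AddCommGroup C) (e : ℕ → C), Pf C e := by
  let f : ℕ → AddCircle (1 : ℚ) := fun n => (((1 : ℚ) / 2 ^ n : ℚ) : AddCircle (1 : ℚ))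
  have hhalf : ∀ n, (2 : ℤ) • f (n + 1) = f n := by
    intro n
    show (2 : ℤ) • ((((1 : ℚ) / 2 ^ (n + 1) : ℚ)) : AddCircle (1 : ℚ)) = (((1 : ℚ) / 2 ^ n : ℚ) : AddCircle (1 : ℚ))
    rw [← AddCircle.coe_zsmul]
    congr 1
    rw [zsmul_eq_mul, pow_succ]
    push_cast
    field_simp
  have hup : ∀ n k, (2 : ℤ) ^ k • f (n + k) = f n := by
    intro n k
    induction k with
    | zero => simp
    | succ k ih => rw [pow_succ, mul_smul, ← add_assoc, hhalf, ih]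
  have hord : ∀ (n : ℕ) (a : ℤ), a • f n = 0 ↔ (2 : ℤ) ^ n ∣ a := by
    intro n a
    show a • ((((1 : ℚ) / 2 ^ n : ℚ)) : AddCircle (1 : ℚ)) = 0 ↔ _
    rw [← AddCircle.coe_zsmul, AddCircle.coe_eq_zero_iff]
    have h2 : ((2 : ℚ) ^ n) ≠ 0 := by positivity
    constructor
    · rintro ⟨k, hk⟩
      refine ⟨k, ?_⟩
      rw [zsmul_eq_mul, zsmul_eq_mul] at hk
      have : (a : ℚ) = 2 ^ n * k := by
        field_simp at hk
        linarith
      exact_mod_cast this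
    · rintro ⟨k, rfl⟩
      refine ⟨k, ?_⟩
      rw [zsmul_eq_mul, zsmul_eq_mul]
      push_cast
      field_simp
  let S : AddSubgroup (AddCircle (1 : ℚ)) :=
    { carrier := {x | ∃ (n : ℕ) (a : ℤ), x = a • f n}
      zero_mem' := ⟨0, 0, by simp⟩
      add_mem' := by
        rintro x y ⟨n, a, rfl⟩ ⟨m, b, rfl⟩
        refine ⟨n + m, a * 2 ^ m + b * 2 ^ n, ?_⟩
        rw [add_smul, mul_smul, mul_smul, hup n m, add_comm n m, hup m n]
      neg_mem' := by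
        rintro x ⟨n, a, rfl⟩
        exact ⟨n, -a, by rw [neg_smul]⟩ }
  refine ⟨S, inferInstance, fun n => ⟨f n, n, 1, by rw [one_smul]⟩, ?_, ?_, ?_⟩
  · rintro ⟨x, n, a, rfl⟩
    exact ⟨n, a, Subtype.ext rfl⟩
  · intro n
    exact Subtype.ext (hhalf n)
  · intro n a
    rw [← hord n a]
    exact ⟨fun h => congrArg Subtype.val h, fun h => Subtype.ext h⟩

variable {C : Type} [AddCommGroup C] {e : ℕ → C}

theorem Pf.up (h : Pf C e) (n k : ℕ) : (2 : ℤ) ^ k • e (n + k) = e n := by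
  induction k with
  | zero => simp
  | succ k ih => rw [pow_succ, mul_smul, ← add_assoc, h.half, ih]

theorem Pf.zero (h : Pf C e) : e 0 = 0 := by
  have := (h.ord 0 1).2 (by simp)
  rwa [one_smul] at this

theorem Pf.countable (h : Pf C e) : Countable C := by
  have : Function.Surjective (fun p : ℕ × ℤ => p.2 • e p.1) := by
    intro x
    obtain ⟨n, a, rfl⟩ := h.gen x
    exact ⟨(n, a), rfl⟩
  exact this.countable

/-- an odd multiple of a `2`-torsion element generates it -/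
theorem odd_mem {A : Type} [AddCommGroup A] (S : AddSubgroup A) (x : A) (n : ℕ) (r : ℤ)
    (hr : Odd r) (hx : (2 : ℤ) ^ n • x = 0) (hm : r • x ∈ S) : x ∈ S := by
  have hc : IsCoprime r ((2 : ℤ) ^ n) := by
    apply IsCoprime.pow_right
    obtain ⟨k, rfl⟩ := hr
    exact ⟨1, -k, by ring⟩
  obtain ⟨u, v, huv⟩ := hc
  have : x = u • (r • x) := by
    calc x = (u * r + v * 2 ^ n) • x := by rw [huv, one_smul]
      _ = u • (r • x) := by rw [add_smul, mul_smul, mul_smul, hx, smul_zero, add_zero]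
  rw [this]
  exact S.zsmul_mem hm u

theorem Pf.key (h : Pf C e) (S : AddSubgroup C) (k : ℕ) : ∀ a : ℤ, a • e k ∈ S →
    ∃ (j : ℕ) (b : ℤ), e j ∈ S ∧ a • e k = b • e j := by
  induction k with
  | zero =>
    intro a _
    exact ⟨0, a, by rw [h.zero]; exact S.zero_mem, rfl⟩
  | succ k ih =>
    intro a ha
    rcases Int.even_or_odd a with ⟨b, rfl⟩ | hodd
    · have e1 : (b + b) • e (k + 1) = b • e k := by
        rw [← h.half k, ← mul_smul]; congr 1; ring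
      rw [e1] at ha ⊢
      exact ih b ha
    · exact ⟨k + 1, a, odd_mem S _ (k + 1) a hodd ((h.ord _ _).2 dvd_rfl) ha, rfl⟩

theorem Pf.classify (h : Pf C e) (S : AddSubgroup C) :
    S = ⊤ ∨ ∃ n, S = AddSubgroup.zmultiples (e n) := by
  classical
  by_cases hall : ∀ n, e n ∈ S
  · left
    rw [eq_top_iff]
    intro x _
    obtain ⟨n, a, rfl⟩ := h.gen x
    exact S.zsmul_mem (hall n) a
  · right
    push Not at hall
    have hm := Nat.find_spec hall
    have hlt : ∀ j, j < Nat.find hall → e j ∈ S := fun j hj => by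
      have := Nat.find_min hall hj
      simpa using this
    obtain ⟨m, hmm⟩ : ∃ m, m = Nat.find hall := ⟨_, rfl⟩
    rw [← hmm] at hm hlt
    rcases m with _ | n
    · exact absurd (by rw [h.zero]; exact S.zero_mem) hm
    refine ⟨n, le_antisymm ?_ ?_⟩
    · intro x hx
      obtain ⟨k, a, rfl⟩ := h.gen x
      obtain ⟨j, b, hj, hb⟩ := h.key S k a hx
      have hjn : j ≤ n := by
        by_contra hc
        obtain ⟨d, rfl⟩ : ∃ d, j = n + 1 + d := ⟨j - (n + 1), by omega⟩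
        apply hm
        rw [← h.up (n + 1) d]
        exact S.zsmul_mem hj _
      obtain ⟨d, rfl⟩ : ∃ d, n = j + d := ⟨n - j, by omega⟩
      rw [hb, ← h.up j d, ← mul_smul]
      exact AddSubgroup.zsmul_mem_zmultiples _ _
    · rw [AddSubgroup.zmultiples_le]
      exact hlt n (by omega)

theorem Pf.countable_sub (h : Pf C e) : Countable (AddSubgroup C) := by
  have : Function.Surjective (fun o : Option ℕ =>
      (o.elim ⊤ (fun n => AddSubgroup.zmultiples (e n)) : AddSubgroup C)) := by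
    intro S
    rcases h.classify S with rfl | ⟨n, rfl⟩
    · exact ⟨none, rfl⟩
    · exact ⟨some n, rfl⟩
  exact this.countable

theorem Pf.chain (h : Pf C e) : StrictMono (fun n => AddSubgroup.zmultiples (e n)) := by
  apply strictMono_nat_of_lt_succ
  intro n
  refine lt_of_le_of_ne ?_ ?_
  · rw [AddSubgroup.zmultiples_le, ← h.half n]
    exact AddSubgroup.zsmul_mem_zmultiples _ _
  · intro heq
    have h1 : e (n + 1) ∈ AddSubgroup.zmultiples (e n) := by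
      have h0 : AddSubgroup.zmultiples (e n) = AddSubgroup.zmultiples (e (n + 1)) := heq
      rw [h0]; exact AddSubgroup.mem_zmultiples _
    obtain ⟨a, ha⟩ := AddSubgroup.mem_zmultiples_iff.1 h1
    have h2 : (a * 2 - 1) • e (n + 1) = 0 := by
      rw [sub_smul, mul_smul, h.half, ha, one_smul, sub_self]
    have h3 := (h.ord _ _).1 h2
    have h4 : (2 : ℤ) ∣ a * 2 - 1 := Dvd.dvd.trans (Dvd.intro_left (2 ^ n) (by rw [pow_succ])) h3
    omega

/-- initial sums of a binary expansion -/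
def bin (a : ℕ → Bool) : ℕ → ℤ
  | 0 => 0
  | n + 1 => bin a n + (if a n then 2 ^ n else 0)

theorem bin_dvd (a : ℕ → Bool) (n k : ℕ) : (2 : ℤ) ^ n ∣ bin a (n + k) - bin a n := by
  induction k with
  | zero => simp
  | succ k ih =>
    have e1 : bin a (n + (k + 1)) - bin a n
        = (bin a (n + k) - bin a n) + (if a (n + k) then 2 ^ (n + k) else 0) := by
      show bin a (n + k) + (if a (n + k) then 2 ^ (n + k) else 0) - _ = _
      ring
    rw [e1]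
    refine ih.add ?_
    split_ifs
    · exact Dvd.intro _ (by rw [pow_add])
    · exact dvd_zero _

theorem bin_inj (a b : ℕ → Bool) (h : ∀ n, (2 : ℤ) ^ n ∣ bin a n - bin b n) : a = b := by
  have hb : ∀ n, bin a n = bin b n → a n = b n := by
    intro n hn
    have h1 := h (n + 1)
    have e1 : bin a (n + 1) - bin b (n + 1)
        = (if a n then 2 ^ n else 0) - (if b n then 2 ^ n else 0) := by
      show bin a n + _ - (bin b n + _) = _
      rw [hn]; ring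
    rw [e1] at h1
    have hp : (0 : ℤ) < 2 ^ n := by positivity
    have hnd : ¬ (2 : ℤ) ^ (n + 1) ∣ 2 ^ n := by
      intro hd
      have := Int.le_of_dvd hp hd
      rw [pow_succ] at this
      omega
    cases ha : a n <;> cases hbn : b n
    · rfl
    · rw [ha, hbn] at h1
      simp only [Bool.false_eq_true, if_false, if_true, zero_sub, dvd_neg] at h1
      exact absurd h1 hnd
    · rw [ha, hbn] at h1
      simp only [Bool.false_eq_true, if_false, if_true, sub_zero] at h1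
      exact absurd h1 hnd
    · rfl
  have hall : ∀ n, bin a n = bin b n := by
    intro n
    induction n with
    | zero => rfl
    | succ n ih =>
      show bin a n + _ = bin b n + _
      rw [ih, hb n ih]
  funext n
  exact hb n (hall n)

/-- graph of multiplication by a dyadic integer -/
def gr (C : Type) [AddCommGroup C] (a : ℕ → Bool) : AddSubgroup (C × C) where
  carrier := {p | ∃ N, ∀ n, N ≤ n → p.2 = bin a n • p.1}
  zero_mem' := ⟨0, fun n _ => by simp⟩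
  add_mem' := by
    rintro p q ⟨N, hN⟩ ⟨M, hM⟩
    refine ⟨max N M, fun n hn => ?_⟩
    rw [Prod.snd_add, Prod.fst_add, smul_add, hN n (le_trans (le_max_left _ _) hn),
      hM n (le_trans (le_max_right _ _) hn)]
  neg_mem' := by
    rintro p ⟨N, hN⟩
    refine ⟨N, fun n hn => ?_⟩
    rw [Prod.snd_neg, Prod.fst_neg, smul_neg, hN n hn]

theorem Pf.bin_smul (h : Pf C e) (a : ℕ → Bool) (n m : ℕ) (hm : n ≤ m) :
    bin a m • e n = bin a n • e n := by
  obtain ⟨k, rfl⟩ := Nat.exists_eq_add_of_le hm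
  have := (h.ord n _).2 (bin_dvd a n k)
  rwa [sub_smul, sub_eq_zero] at this

theorem Pf.gr_inj (h : Pf C e) : Function.Injective (gr C) := by
  intro a b hab
  apply bin_inj
  intro n
  have h1 : (e n, bin a n • e n) ∈ gr C a := ⟨n, fun m hm => (h.bin_smul a n m hm).symm⟩
  rw [hab] at h1
  obtain ⟨N, hN⟩ := h1
  have h2 : bin a n • e n = bin b (max N n) • e n := hN (max N n) (le_max_left _ _)
  rw [h.bin_smul b n _ (le_max_right _ _)] at h2
  apply (h.ord n _).1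
  rw [sub_smul, h2, sub_self]

theorem Pf.uncountable (h : Pf C e) : ¬ Countable (AddSubgroup (C × C)) := by
  intro hc
  have h1 : Countable (ℕ → Bool) := h.gr_inj.countable
  obtain ⟨f, hf⟩ := exists_surjective_nat (ℕ → Bool)
  obtain ⟨n, hn⟩ := hf (fun k => !(f k k))
  have := congrFun hn n
  simp at this

theorem rel0 (a1 a2 a3 b1 b2 b3 : ℤ) : ∃ r1 r2 r3 : ℤ, (r1 ≠ 0 ∨ r2 ≠ 0 ∨ r3 ≠ 0) ∧
    r1 * a1 + r2 * a2 + r3 * a3 = 0 ∧ r1 * b1 + r2 * b2 + r3 * b3 = 0 := by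
  by_cases hc : a2 * b3 - a3 * b2 ≠ 0 ∨ a3 * b1 - a1 * b3 ≠ 0 ∨ a1 * b2 - a2 * b1 ≠ 0
  · exact ⟨_, _, _, hc, by ring, by ring⟩
  push Not at hc
  obtain ⟨c1, c2, c3⟩ := hc
  by_cases h1 : a1 ≠ 0
  · exact ⟨a2, -a1, 0, Or.inr (Or.inl (neg_ne_zero.2 h1)), by ring, by linarith⟩
  by_cases h2 : b1 ≠ 0
  · exact ⟨b2, -b1, 0, Or.inr (Or.inl (neg_ne_zero.2 h2)), by linarith, by ring⟩
  push Not at h1 h2
  exact ⟨1, 0, 0, Or.inl one_ne_zero, by rw [h1]; ring, by rw [h2]; ring⟩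

theorem rel1 (a1 a2 a3 b1 b2 b3 : ℤ) (N : ℕ) : ∀ r1 r2 r3 : ℤ,
    r1.natAbs + r2.natAbs + r3.natAbs ≤ N → (r1 ≠ 0 ∨ r2 ≠ 0 ∨ r3 ≠ 0) →
    r1 * a1 + r2 * a2 + r3 * a3 = 0 → r1 * b1 + r2 * b2 + r3 * b3 = 0 →
    ∃ r1 r2 r3 : ℤ, (Odd r1 ∨ Odd r2 ∨ Odd r3) ∧
      r1 * a1 + r2 * a2 + r3 * a3 = 0 ∧ r1 * b1 + r2 * b2 + r3 * b3 = 0 := by
  induction N with
  | zero => intro r1 r2 r3 h hne; omega
  | succ N ih =>
    intro r1 r2 r3 h hne ha hb
    by_cases ho : Odd r1 ∨ Odd r2 ∨ Odd r3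
    · exact ⟨r1, r2, r3, ho, ha, hb⟩
    push Not at ho
    obtain ⟨o1, o2, o3⟩ := ho
    obtain ⟨s1, rfl⟩ := Int.not_odd_iff_even.1 o1
    obtain ⟨s2, rfl⟩ := Int.not_odd_iff_even.1 o2
    obtain ⟨s3, rfl⟩ := Int.not_odd_iff_even.1 o3
    exact ih s1 s2 s3 (by omega) (by omega) (by linarith) (by linarith)

theorem Pf.lift (h : Pf C e) (x : C) : ∃ N, ∀ n, N ≤ n → ∃ a : ℤ, x = a • e n := by
  obtain ⟨N, a, rfl⟩ := h.gen x
  refine ⟨N, fun n hn => ?_⟩
  obtain ⟨k, rfl⟩ := Nat.exists_eq_add_of_le hn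
  exact ⟨a * 2 ^ k, by rw [mul_smul, h.up]⟩

theorem Pf.three (h : Pf C e) (S₁ S₂ S₃ : AddSubgroup (C × C)) :
    S₁ ≤ S₂ ⊔ S₃ ∨ S₂ ≤ S₁ ⊔ S₃ ∨ S₃ ≤ S₁ ⊔ S₂ := by
  by_contra hcon
  push Not at hcon
  obtain ⟨n1, n2, n3⟩ := hcon
  obtain ⟨c1, m1, k1⟩ := SetLike.not_le_iff_exists.1 n1
  obtain ⟨c2, m2, k2⟩ := SetLike.not_le_iff_exists.1 n2
  obtain ⟨c3, m3, k3⟩ := SetLike.not_le_iff_exists.1 n3
  obtain ⟨x1, y1⟩ := c1
  obtain ⟨x2, y2⟩ := c2
  obtain ⟨x3, y3⟩ := c3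
  obtain ⟨N1, p1⟩ := h.lift x1
  obtain ⟨N2, p2⟩ := h.lift x2
  obtain ⟨N3, p3⟩ := h.lift x3
  obtain ⟨M1, q1⟩ := h.lift y1
  obtain ⟨M2, q2⟩ := h.lift y2
  obtain ⟨M3, q3⟩ := h.lift y3
  obtain ⟨n, hn⟩ : ∃ n, n = N1 + N2 + N3 + M1 + M2 + M3 := ⟨_, rfl⟩
  obtain ⟨a1, rfl⟩ := p1 n (by omega)
  obtain ⟨a2, rfl⟩ := p2 n (by omega)
  obtain ⟨a3, rfl⟩ := p3 n (by omega)
  obtain ⟨b1, rfl⟩ := q1 n (by omega)
  obtain ⟨b2, rfl⟩ := q2 n (by omega)
  obtain ⟨b3, rfl⟩ := q3 n (by omega)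
  obtain ⟨s1, s2, s3, hs, hsa, hsb⟩ := rel0 a1 a2 a3 b1 b2 b3
  obtain ⟨r1, r2, r3, ho, ha, hb⟩ := rel1 a1 a2 a3 b1 b2 b3 _ s1 s2 s3 le_rfl hs hsa hsb
  have tors : ∀ a b : ℤ, (2 : ℤ) ^ n • ((a • e n, b • e n) : C × C) = 0 := by
    intro a b
    have h0 := (h.ord n _).2 (dvd_refl ((2 : ℤ) ^ n))
    refine Prod.ext ?_ ?_
    · show (2 : ℤ) ^ n • (a • e n) = 0
      rw [smul_comm, h0, smul_zero]
    · show (2 : ℤ) ^ n • (b • e n) = 0
      rw [smul_comm, h0, smul_zero]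
  have hrel : r1 • ((a1 • e n, b1 • e n) : C × C) + r2 • (a2 • e n, b2 • e n)
      + r3 • (a3 • e n, b3 • e n) = 0 := by
    refine Prod.ext ?_ ?_
    · show r1 • (a1 • e n) + r2 • (a2 • e n) + r3 • (a3 • e n) = 0
      rw [← mul_smul, ← mul_smul, ← mul_smul, ← add_smul, ← add_smul, ha, zero_smul]
    · show r1 • (b1 • e n) + r2 • (b2 • e n) + r3 • (b3 • e n) = 0
      rw [← mul_smul, ← mul_smul, ← mul_smul, ← add_smul, ← add_smul, hb, zero_smul]
  obtain ⟨c1, hc1⟩ : ∃ c : C × C, c = (a1 • e n, b1 • e n) := ⟨_, rfl⟩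
  obtain ⟨c2, hc2⟩ : ∃ c : C × C, c = (a2 • e n, b2 • e n) := ⟨_, rfl⟩
  obtain ⟨c3, hc3⟩ : ∃ c : C × C, c = (a3 • e n, b3 • e n) := ⟨_, rfl⟩
  have t1 := tors a1 b1
  have t2 := tors a2 b2
  have t3 := tors a3 b3
  rw [← hc1] at hrel m1 k1 t1
  rw [← hc2] at hrel m2 k2 t2
  rw [← hc3] at hrel m3 k3 t3
  rcases ho with ho | ho | ho
  · apply k1
    apply odd_mem _ _ n r1 ho t1
    have e1 : r1 • c1 = (-r2) • c2 + (-r3) • c3 := by
      rw [neg_smul, neg_smul, ← sub_eq_zero, ← hrel]; abel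
    rw [e1]
    exact AddSubgroup.add_mem_sup (S₂.zsmul_mem m2 _) (S₃.zsmul_mem m3 _)
  · apply k2
    apply odd_mem _ _ n r2 ho t2
    have e1 : r2 • c2 = (-r1) • c1 + (-r3) • c3 := by
      rw [neg_smul, neg_smul, ← sub_eq_zero, ← hrel]; abel
    rw [e1]
    exact AddSubgroup.add_mem_sup (S₁.zsmul_mem m1 _) (S₃.zsmul_mem m3 _)
  · apply k3
    apply odd_mem _ _ n r3 ho t3
    have e1 : r3 • c3 = (-r1) • c1 + (-r2) • c2 := by
      rw [neg_smul, neg_smul, ← sub_eq_zero, ← hrel]; abel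
    rw [e1]
    exact AddSubgroup.add_mem_sup (S₁.zsmul_mem m1 _) (S₂.zsmul_mem m2 _)

end Pool.Agent.MP_5c28a4_al.H4
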