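import Pool.Agent.MP_5c28a4_al.H89.Spec
import Pool.Agent.MP_5c28a4_al.H4.PruA

namespace Pool.Agent.MP_5c28a4_al.H4

open Pool.Agent.MP_5c28a4_al.H89

theorem pru : PruStmt := by
  obtain ⟨C, inst, e, h⟩ := exists_pf
  have hc := h.countable
  exact ⟨⟨C, inst, hc, h.countable_sub, _, h.chain⟩,
    ⟨C × C, inferInstance, inferInstance, h.uncountable, h.three⟩⟩

end Pool.Agent.MP_5c28a4_al.H4
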